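import Pool.Agent.helper45.TC.Spec

/-!
# MS0: the sum of squares at the vacuum
-/

set_option autoImplicit false

open Polynomial Finset Pool.Agent.helper27.PC

namespace Pool.Agent.TC

theorem MS0_sq (x y z : ℤ[X]) (k : ℕ) : ((-1) ^ k * x * (y * z)) ^ 2 = x ^ 2 * (y ^ 2 * z ^ 2) := by
  have h : (((-1) ^ k : ℤ[X])) ^ 2 = 1 := by
    rw [← pow_mul, mul_comm, pow_mul]
    simp
  calc ((-1) ^ k * x * (y * z)) ^ 2 = (((-1) ^ k : ℤ[X])) ^ 2 * (x ^ 2 * (y ^ 2 * z ^ 2)) := by ring
    _ = _ := by rw [h, one_mul]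

theorem MS0_C (ε : ℤ) (h : ε = 1 ∨ ε = -1) : (C ε : ℤ[X]) ^ 2 = 1 := by
  rcases h with h | h <;> rw [h] <;> simp

theorem MS0 (hCL0 : CL0_stmt) (hYV1 : YV1_stmt) : MS0_stmt := by
  classical
  intro s a b hs hsa hb
  have hsb : s ≤ b := by omega
  have hmv : ∀ c g, move b (vac (s + a + b)) (c, g) = D3 s a b c g := by
    intro c g
    unfold D3
    rw [← hb]
  set f1 : Bool × ℕ → Lab := fun p => (p.1, a + b + p.2) with hf1
  set f2 : Bool × ℕ → Lab := fun p => (p.1, b + p.2) with hf2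
  set K : Finset (Bool × ℕ) := univ ×ˢ range s with hK
  have hKm : ∀ p, p ∈ K ↔ p.2 < s := by
    intro p
    rw [hK, mem_product, mem_range]
    simp
  have hi1 : Set.InjOn f1 K := by
    rintro ⟨c, i⟩ _ ⟨c', i'⟩ _ h
    simp only [hf1, Prod.mk.injEq] at h
    rw [h.1, show i = i' by omega]
  have hi2 : Set.InjOn f2 K := by
    rintro ⟨c, i⟩ _ ⟨c', i'⟩ _ h
    simp only [hf2, Prod.mk.injEq] at h
    rw [h.1, show i = i' by omega]
  have hdis : Disjoint (K.image f1) (K.image f2) := by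
    rw [Finset.disjoint_left]
    intro l h1 h2
    obtain ⟨p, hp, rfl⟩ := Finset.mem_image.1 h1
    obtain ⟨p', hp', h3⟩ := Finset.mem_image.1 h2
    rw [hKm] at hp hp'
    have h4 := congrArg Prod.snd h3
    simp only [hf1, hf2] at h4
    omega
  have hsub : K.image f1 ∪ K.image f2 ⊆ addable b (vac (s + a + b)) := by
    intro l hl
    rw [mem_ad, mem_vac', mem_vac']
    rcases Finset.mem_union.1 hl with h | h <;> obtain ⟨p, hp, rfl⟩ := Finset.mem_image.1 h <;>
      rw [hKm] at hp <;> simp only [hf1, hf2, up] <;> omega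
  rw [← Finset.sum_subset hsub, Finset.sum_union hdis, Finset.sum_image hi1, Finset.sum_image hi2,
    ← Finset.sum_add_distrib, hK, Finset.sum_product]
  · apply Finset.sum_congr rfl
    intro c _
    apply Finset.sum_congr rfl
    intro i hi
    rw [mem_range] at hi
    obtain ⟨⟨ε, hε, h1⟩, ⟨ε', hε', h2⟩⟩ := hYV1 s a b hs hsa hsb c i hi
    unfold zz
    simp only [hf1, hf2]
    rw [hmv, hmv, h1, h2, MS0_sq, MS0_sq, MS0_C ε hε, MS0_C ε' hε', one_mul, one_mul, wl_sq, wl_sq, ← pow_mul,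
      ← pow_mul, ← pow_add, ← pow_add]
    congr 2
    · show 2 * (a + b + i + ix c) + (a + s + 2 * (i + ix c)) * 2 = _
      ring
    · show 2 * (b + i + ix c) + 2 * (i + ix c) * 2 = _
      ring
  · intro l hl hn
    unfold zz
    by_cases h0 : yv s a b (move b (vac (s + a + b)) l) = 0
    · rw [h0]
      ring
    · exfalso
      obtain ⟨-, i, hi, h⟩ := hCL0 s a b hs hsa hb (vac (s + a + b)) l hl h0
      apply hn
      rcases h with h | h
      · apply Finset.mem_union_left
        apply Finset.mem_image.2 ⟨(l.1, i), (hKm _).2 hi, ?_⟩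
        simp only [hf1]
        rw [← h]
      · apply Finset.mem_union_right
        apply Finset.mem_image.2 ⟨(l.1, i), (hKm _).2 hi, ?_⟩
        simp only [hf2]
        rw [← h]

end Pool.Agent.TC
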